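import Pool.Agent.Work.MP_e9fc1b_co.Main

set_option autoImplicit false

namespace Pool.Agent.Results.MP_e9fc1b_co.LogBound

open Pool.Agent.Work.MP_e9fc1b_co

/-- There is a constant `c` such that the hypergraph induced by any family of `n ≥ 2` axis-parallel
rectangles is `k`-choosable for some `k ≤ c log n`. -/
theorem result : ∃ c : ℝ, ∀ R : Finset (Set (ℝ × ℝ)),
    (∀ v ∈ R, ∃ a₁ a₂ b₁ b₂ : ℝ, a₁ < a₂ ∧ b₁ < b₂ ∧ v = Set.Icc a₁ a₂ ×ˢ Set.Icc b₁ b₂) →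
    2 ≤ R.card →
    ∃ k : ℕ, (k : ℝ) ≤ c * Real.log R.card ∧
      ∀ L : Set (ℝ × ℝ) → Set ℕ+, (∀ v ∈ R, (k : ℕ∞) ≤ (L v).encard) →
        ∃ C : Set (ℝ × ℝ) → ℕ+, (∀ v ∈ R, C v ∈ L v) ∧
          ∀ p : ℝ × ℝ, 2 ≤ {v | v ∈ R ∧ p ∈ v}.ncard →
            ∃ u ∈ R, ∃ v ∈ R, p ∈ u ∧ p ∈ v ∧ C u ≠ C v := by
  classical
  refine ⟨5000, fun R hR hn => ⟨_, size_bound R.card hn, fun L hL => ?_⟩⟩
  choose l r b t hlr hbt hv using fun v : {v // v ∈ R} => hR v.val v.property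
  have hcov : ∀ (p : ℝ × ℝ) (v : {v // v ∈ R}), Cov l r b t p.1 p.2 v ↔ p ∈ v.val := by
    intro p v
    rw [hv v]
    simp only [Cov, Set.mem_prod, Set.mem_Icc]
    tauto
  obtain ⟨col, hcol, hc⟩ := colour_sets l r b t (fun v => (hlr v).le) (Nat.log 2 (2 * R.card))
    (by
      rw [Fintype.card_coe]
      exact Nat.lt_pow_succ_log_self (by norm_num) _)
    (fun v => L v.val) (fun v => hL v.val v.property)
  refine ⟨fun v => if h : v ∈ R then col ⟨v, h⟩ else 1, fun v h => ?_, fun p hp => ?_⟩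
  · simp only [dif_pos h]
    exact hcol ⟨v, h⟩
  · obtain ⟨a, c, ha, hc', hac⟩ := (Set.one_lt_ncard_iff
      (s := {v | v ∈ R ∧ p ∈ v}) (R.finite_toSet.subset (fun v hv => hv.1))).1 hp
    obtain ⟨u, v, hu, hv', hne⟩ := hc p.1 p.2 ⟨⟨a, ha.1⟩, ⟨c, hc'.1⟩,
      fun h => hac (congrArg Subtype.val h), (hcov p _).2 ha.2, (hcov p _).2 hc'.2⟩
    refine ⟨u.val, u.property, v.val, v.property, (hcov p u).1 hu, (hcov p v).1 hv', ?_⟩
    simp only [dif_pos u.property, dif_pos v.property]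
    exact hne

end Pool.Agent.Results.MP_e9fc1b_co.LogBound
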